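import Pool.Agent.H73.EQD.Stmts

open Real Set Topology Filter

namespace EQD
namespace H32

/-! ### the smooth transition -/

theorem st_diff (x : ℝ) : DifferentiableAt ℝ ST x :=
  (Real.smoothTransition.contDiff (n := 1)).differentiable (by norm_num) x

theorem st_zero {x : ℝ} (h : x ≤ 0) : ST x = 0 := Real.smoothTransition.zero_of_nonpos h
theorem st_one {x : ℝ} (h : 1 ≤ x) : ST x = 1 := Real.smoothTransition.one_of_one_le h
theorem st_nn (x : ℝ) : 0 ≤ ST x := Real.smoothTransition.nonneg x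
theorem st_le (x : ℝ) : ST x ≤ 1 := Real.smoothTransition.le_one x

theorem st_deriv_nonpos {x : ℝ} (h : x ≤ 0) : deriv ST x = 0 := by
  have hmin : IsLocalMin ST x := by
    apply Filter.Eventually.of_forall
    intro y
    show ST x ≤ ST y
    rw [st_zero h]
    exact st_nn y
  exact hmin.deriv_eq_zero

theorem st_deriv_one_le {x : ℝ} (h : 1 ≤ x) : deriv ST x = 0 := by
  have hmax : IsLocalMax ST x := by
    apply Filter.Eventually.of_forall
    intro y
    show ST y ≤ ST x
    rw [st_one h]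
    exact st_le y
  exact hmax.deriv_eq_zero

theorem glue_hasDeriv {x : ℝ} (h : 0 < x) :
    HasDerivAt expNegInvGlue (Real.exp (-x⁻¹) * (x ^ 2)⁻¹) x := by
  have h1 : HasDerivAt (fun y : ℝ => Real.exp (-y⁻¹)) (Real.exp (-x⁻¹) * (x ^ 2)⁻¹) x := by
    have := ((hasDerivAt_inv h.ne').neg).exp
    simpa using this
  refine h1.congr_of_eventuallyEq ?_
  filter_upwards [lt_mem_nhds h] with y hy
  unfold expNegInvGlue
  rw [if_neg (not_le.2 hy)]

theorem st_deriv_pos {x : ℝ} (h0 : 0 < x) (h1 : x < 1) : 0 < deriv ST x := by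
  have e1 := glue_hasDeriv h0
  have e2 : HasDerivAt (fun y : ℝ => expNegInvGlue (1 - y))
      (-(Real.exp (-(1 - x)⁻¹) * ((1 - x) ^ 2)⁻¹)) x := by
    have h2 : HasDerivAt (fun y : ℝ => 1 - y) (-1) x := by
      simpa using (hasDerivAt_id x).const_sub 1
    have := (glue_hasDeriv (x := 1 - x) (by linarith)).comp x h2
    refine this.congr_deriv ?_
    ring
  have p1 : 0 < expNegInvGlue x := expNegInvGlue.pos_of_pos h0
  have p2 : 0 < expNegInvGlue (1 - x) := expNegInvGlue.pos_of_pos (by linarith)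
  have e3 := e1.div (e1.add e2) (by
    show expNegInvGlue x + expNegInvGlue (1 - x) ≠ 0
    positivity)
  have e4 : deriv ST x = _ := HasDerivAt.deriv (f := ST) e3
  rw [e4]
  have q1 : 0 < Real.exp (-x⁻¹) * (x ^ 2)⁻¹ := by positivity
  have q2 : 0 < Real.exp (-(1 - x)⁻¹) * ((1 - x) ^ 2)⁻¹ := by
    have : 0 < 1 - x := by linarith
    positivity
  have q3 : 0 < expNegInvGlue x + expNegInvGlue (1 - x) := by positivity
  apply div_pos
  · simp only [Pi.add_apply]
    nlinarith [mul_pos q1 p2, mul_pos q2 p1]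
  · simp only [Pi.add_apply]
    positivity

theorem st_deriv_nonneg (x : ℝ) : 0 ≤ deriv ST x := by
  rcases le_or_gt x 0 with h | h
  · rw [st_deriv_nonpos h]
  · rcases le_or_gt 1 x with h' | h'
    · rw [st_deriv_one_le h']
    · exact (st_deriv_pos h h').le

theorem st_hasDeriv (x : ℝ) : HasDerivAt ST (deriv ST x) x := (st_diff x).hasDerivAt

/-! ### `fA` and `fN` -/

theorem fA_hasDeriv (τ : ℝ) : HasDerivAt fA
    (π * (deriv ST ((4 - τ) / 3) * (-1 / 3) + deriv ST ((9 - τ) / 5) * (-1 / 5))) τ := by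
  have h1 : HasDerivAt (fun τ : ℝ => (4 - τ) / 3) (-1 / 3) τ := by
    simpa using ((hasDerivAt_id τ).const_sub 4).div_const 3
  have h2 : HasDerivAt (fun τ : ℝ => (9 - τ) / 5) (-1 / 5) τ := by
    simpa using ((hasDerivAt_id τ).const_sub 9).div_const 5
  have g1 := (st_hasDeriv ((4 - τ) / 3)).comp τ h1
  have g2 := (st_hasDeriv ((9 - τ) / 5)).comp τ h2
  exact (g1.add g2).const_mul π

theorem fN_hasDeriv (τ : ℝ) : HasDerivAt fN
    (deriv ST (τ - 1) * ST (4 - τ) - ST (τ - 1) * deriv ST (4 - τ) -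
      (deriv ST (τ - 4) * ST (9 - τ) - ST (τ - 4) * deriv ST (9 - τ)) / 2) τ := by
  have h1 : HasDerivAt (fun τ : ℝ => τ - 1) 1 τ := (hasDerivAt_id τ).sub_const 1
  have h4 : HasDerivAt (fun τ : ℝ => τ - 4) 1 τ := (hasDerivAt_id τ).sub_const 4
  have h2 : HasDerivAt (fun τ : ℝ => 4 - τ) (-1) τ := by
    simpa using (hasDerivAt_id τ).const_sub 4
  have h9 : HasDerivAt (fun τ : ℝ => 9 - τ) (-1) τ := by
    simpa using (hasDerivAt_id τ).const_sub 9
  have g1 := (st_hasDeriv (τ - 1)).comp τ h1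
  have g2 := (st_hasDeriv (4 - τ)).comp τ h2
  have g3 := (st_hasDeriv (τ - 4)).comp τ h4
  have g4 := (st_hasDeriv (9 - τ)).comp τ h9
  have := ((hasDerivAt_const τ (1 : ℝ)).add (g1.mul g2)).sub ((g3.mul g4).div_const 2)
  refine this.congr_deriv ?_
  simp only [Function.comp_apply]
  ring

/-- where the angle is stationary, the radial factor is stationary as well -/
theorem stationary (τ : ℝ) : deriv fN τ = 0 ∨ deriv fA τ ≠ 0 := by
  rw [(fN_hasDeriv τ).deriv, (fA_hasDeriv τ).deriv]
  have hpi := Real.pi_pos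
  rcases le_or_gt τ 1 with h1 | h1
  · left
    rw [st_deriv_nonpos (x := τ - 1) (by linarith), st_deriv_nonpos (x := τ - 4) (by linarith),
      st_zero (x := τ - 1) (by linarith),
      st_zero (x := τ - 4) (by linarith)]
    ring
  · rcases lt_trichotomy τ 4 with h4 | h4 | h4
    · right
      have p1 := st_deriv_pos (x := (4 - τ) / 3) (by linarith) (by linarith)
      have p2 := st_deriv_nonneg ((9 - τ) / 5)
      have : deriv ST ((4 - τ) / 3) * (-1 / 3) + deriv ST ((9 - τ) / 5) * (-1 / 5) < 0 := by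
        linarith
      exact (mul_neg_of_pos_of_neg hpi this).ne
    · left
      subst h4
      rw [st_deriv_one_le (x := 4 - 1) (by norm_num), st_deriv_nonpos (x := 4 - 4) (by norm_num),
        st_zero (x := 4 - 4) (by norm_num)]
      ring
    · rcases lt_or_ge τ 9 with h9 | h9
      · right
        have p1 := st_deriv_pos (x := (9 - τ) / 5) (by linarith) (by linarith)
        have p2 := st_deriv_nonneg ((4 - τ) / 3)
        have : deriv ST ((4 - τ) / 3) * (-1 / 3) + deriv ST ((9 - τ) / 5) * (-1 / 5) < 0 := by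
          linarith
        exact (mul_neg_of_pos_of_neg hpi this).ne
      · left
        rw [st_deriv_nonpos (x := 4 - τ) (by linarith), st_deriv_nonpos (x := 9 - τ) (by linarith),
          st_zero (x := 4 - τ) (by linarith),
          st_zero (x := 9 - τ) (by linarith)]
        ring

theorem fN_ge (τ : ℝ) : 1 / 2 ≤ fN τ := by
  unfold fN
  have := mul_nonneg (st_nn (τ - 1)) (st_nn (4 - τ))
  have : ST (τ - 4) * ST (9 - τ) ≤ 1 := mul_le_one₀ (st_le _) (st_nn _) (st_le _)
  linarith

theorem fN_le (τ : ℝ) : fN τ ≤ 2 := by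
  unfold fN
  have := mul_nonneg (st_nn (τ - 4)) (st_nn (9 - τ))
  have : ST (τ - 1) * ST (4 - τ) ≤ 1 := mul_le_one₀ (st_le _) (st_nn _) (st_le _)
  linarith

/-! ### the direction -/

theorem v_pos (c : ℝ) : 0 < fV1 c ^ 2 + fV2 c ^ 2 := by
  unfold fV1 fV2
  nlinarith [sq_nonneg (c - 6 / 5)]

theorem vn_pos (c : ℝ) : 0 < fVn c := Real.sqrt_pos.2 (v_pos c)

/-- first component of the unit direction -/
noncomputable def N1 (χ : ℝ) : ℝ := fV1 (fc χ) / fVn (fc χ)
/-- second component of the unit direction -/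
noncomputable def N2 (χ : ℝ) : ℝ := fV2 (fc χ) / fVn (fc χ)

theorem n_sq (χ : ℝ) : N1 χ ^ 2 + N2 χ ^ 2 = 1 := by
  unfold N1 N2
  have h1 : fVn (fc χ) ^ 2 = fV1 (fc χ) ^ 2 + fV2 (fc χ) ^ 2 := Real.sq_sqrt (v_pos _).le
  have h2 := (vn_pos (fc χ)).ne'
  field_simp
  rw [h1]

theorem contDiff_ST : ContDiff ℝ (⊤ : ℕ∞) ST := Real.smoothTransition.contDiff

theorem contDiff_fA : ContDiff ℝ (⊤ : ℕ∞) fA := by
  have := contDiff_ST
  unfold fA
  fun_prop

theorem contDiff_fN : ContDiff ℝ (⊤ : ℕ∞) fN := by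
  have := contDiff_ST
  unfold fN
  fun_prop

theorem contDiff_fc : ContDiff ℝ (⊤ : ℕ∞) fc := by
  have := contDiff_ST
  unfold fc
  fun_prop

theorem contDiff_fVn : ContDiff ℝ (⊤ : ℕ∞) fVn := by
  unfold fVn
  apply ContDiff.sqrt
  · unfold fV1 fV2
    fun_prop
  · intro c
    exact (v_pos c).ne'

theorem contDiff_N1 : ContDiff ℝ (⊤ : ℕ∞) N1 := by
  have h1 := contDiff_fVn.comp contDiff_fc
  have h2 := contDiff_fc
  unfold N1
  apply ContDiff.div
  · unfold fV1
    fun_prop
  · exact h1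
  · intro x
    exact (vn_pos _).ne'

theorem contDiff_N2 : ContDiff ℝ (⊤ : ℕ∞) N2 := by
  have h1 := contDiff_fVn.comp contDiff_fc
  have h2 := contDiff_fc
  unfold N2
  apply ContDiff.div
  · unfold fV2
    fun_prop
  · exact h1
  · intro x
    exact (vn_pos _).ne'

/-! ### coordinates of the finger -/

/-- radius -/
noncomputable def rr (a b : ℝ) : ℝ := 1 / 4 + fN (ft a b) * (a - 1 / 4)
/-- last coordinate -/
noncomputable def ss (a b : ℝ) : ℝ := 1 / 2 + fN (ft a b) * (b - 1 / 2)
/-- angle -/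
noncomputable def cc (a b : ℝ) : ℝ := fA (ft a b)

theorem eP_eq (a b : ℝ) : eP a b = !₂[-(rr a b * sin (cc a b)), rr a b * cos (cc a b) * N1 (cc a b),
    rr a b * cos (cc a b) * N2 (cc a b), ss a b] := rfl

theorem contDiff_eP {f g : E2 → ℝ} (hf : ContDiff ℝ (⊤ : ℕ∞) f) (hg : ContDiff ℝ (⊤ : ℕ∞) g)
    (i : Fin 4) : ContDiff ℝ (⊤ : ℕ∞) (fun h => eP (f h) (g h) i) := by
  have c1 := contDiff_fA
  have c2 := contDiff_fN
  have c3 := contDiff_N1
  have c4 := contDiff_N2
  have t : ContDiff ℝ (⊤ : ℕ∞) (fun h => ft (f h) (g h)) := by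
    unfold ft
    fun_prop
  have r : ContDiff ℝ (⊤ : ℕ∞) (fun h => rr (f h) (g h)) := by
    unfold rr
    fun_prop
  have s : ContDiff ℝ (⊤ : ℕ∞) (fun h => ss (f h) (g h)) := by
    unfold ss
    fun_prop
  have c : ContDiff ℝ (⊤ : ℕ∞) (fun h => cc (f h) (g h)) := by
    unfold cc
    fun_prop
  have k1 : ContDiff ℝ (⊤ : ℕ∞) (fun h => N1 (cc (f h) (g h))) := c3.comp c
  have k2 : ContDiff ℝ (⊤ : ℕ∞) (fun h => N2 (cc (f h) (g h))) := c4.comp c
  have k3 : ContDiff ℝ (⊤ : ℕ∞) (fun h => sin (cc (f h) (g h))) := Real.contDiff_sin.comp c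
  have k4 : ContDiff ℝ (⊤ : ℕ∞) (fun h => cos (cc (f h) (g h))) := Real.contDiff_cos.comp c
  simp only [eP_eq]
  fin_cases i
  · simpa using (r.mul k3).neg
  · simpa using (r.mul k4).mul k1
  · simpa using (r.mul k4).mul k2
  · simpa using s

theorem contDiff_coord (i : Fin 2) : ContDiff ℝ (⊤ : ℕ∞) (fun h : E2 => h i) :=
  (EuclideanSpace.proj i : E2 →L[ℝ] ℝ).contDiff

theorem contDiff_eD : ContDiff ℝ (⊤ : ℕ∞) eD := by
  rw [contDiff_euclidean]
  intro i
  have h0 := contDiff_coord 0
  have h1 := contDiff_coord 1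
  have a := contDiff_eP h0 h1 i
  have b := contDiff_eP h0.neg h1 i
  have c := contDiff_eP h0 h1.neg i
  have d := contDiff_eP h0.neg h1.neg i
  unfold eD e0 rho rhp
  fin_cases i <;> simp at a b c d ⊢ <;> fun_prop

theorem eD_rho (h : E2) : eD !₂[-h 0, h 1] = rho (eD h) := by
  ext i
  fin_cases i <;> simp [eD, rho, rhp, e0] <;> ring

theorem eD_rhp (h : E2) : eD !₂[h 0, -h 1] = rhp (eD h) := by
  ext i
  fin_cases i <;> simp [eD, rho, rhp, e0] <;> ring

theorem eP_flat {a b : ℝ} (h : 9 ≤ ft a b) : eP a b = e0 a b := by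
  have h1 : fN (ft a b) = 1 := by
    unfold fN
    rw [st_zero (x := 4 - ft a b) (by linarith), st_zero (x := 9 - ft a b) (by linarith)]
    ring
  have h2 : cc a b = 0 := by
    unfold cc fA
    rw [st_zero (x := (4 - ft a b) / 3) (by linarith),
      st_zero (x := (9 - ft a b) / 5) (by linarith)]
    ring
  have hpi := Real.pi_pos
  have h3 : fc 0 = 0 := by
    unfold fc
    rw [st_zero (x := 0 - 1 / 4) (by norm_num), st_zero (x := 0 - π - 1 / 4) (by linarith)]
    ring
  have h4 : N1 0 = 1 := by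
    unfold N1 fVn fV1 fV2
    rw [h3]
    simp
  have h5 : N2 0 = 0 := by
    unfold N2 fV2
    rw [h3]
    simp
  rw [eP_eq, h2, h4, h5]
  unfold rr ss e0
  rw [h1]
  ext i
  fin_cases i <;> simp

theorem ft_far {a b : ℝ} (h : 4 / 5 ≤ a ^ 2 + b ^ 2) : 9 ≤ ft a b := by
  unfold ft
  nlinarith [sq_nonneg (a - 5 / 12), sq_nonneg (b - 5 / 6)]

theorem norm_sq_E2 (h : E2) : ‖h‖ ^ 2 = h 0 ^ 2 + h 1 ^ 2 := by
  rw [EuclideanSpace.norm_sq_eq]
  simp [Fin.sum_univ_two]

theorem eD_far (h : E2) (hh : 4 / 5 ≤ ‖h‖ ^ 2) : eD h = e0 (h 0) (h 1) := by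
  rw [norm_sq_E2] at hh
  unfold eD
  rw [eP_flat (ft_far hh), eP_flat (ft_far (a := -h 0) (b := h 1) (by simpa using hh)),
    eP_flat (ft_far (a := h 0) (b := -h 1) (by simpa using hh)),
    eP_flat (ft_far (a := -h 0) (b := -h 1) (by simpa using hh))]
  ext i
  fin_cases i <;> simp [rho, rhp, e0]

/-- reflection in the first coordinate -/
noncomputable def sg0 : E2 →L[ℝ] E2 := LinearMap.toContinuousLinearMap
  { toFun := fun h => !₂[-h 0, h 1]
    map_add' := by intro x y; ext i; fin_cases i <;> simp; ring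
    map_smul' := by intro c x; ext i; fin_cases i <;> simp }

/-- reflection in the second coordinate -/
noncomputable def sg1 : E2 →L[ℝ] E2 := LinearMap.toContinuousLinearMap
  { toFun := fun h => !₂[h 0, -h 1]
    map_add' := by intro x y; ext i; fin_cases i <;> simp; ring
    map_smul' := by intro c x; ext i; fin_cases i <;> simp }

/-- `rho` as a linear map -/
noncomputable def rhoL : E4 →L[ℝ] E4 := LinearMap.toContinuousLinearMap
  { toFun := rho
    map_add' := by intro x y; ext i; fin_cases i <;> simp [rho] <;> ring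
    map_smul' := by intro c x; ext i; fin_cases i <;> simp [rho] }

/-- `rhp` as a linear map -/
noncomputable def rhpL : E4 →L[ℝ] E4 := LinearMap.toContinuousLinearMap
  { toFun := rhp
    map_add' := by intro x y; ext i; fin_cases i <;> simp [rhp] <;> ring
    map_smul' := by intro c x; ext i; fin_cases i <;> simp [rhp] }

/-- in the first quadrant the disk is the finger around `(1/4, 1/2)` -/
theorem eD_near {h : E2} (h0 : 0 ≤ h 0) (h1 : 0 ≤ h 1) :
    eD =ᶠ[𝓝 h] fun h' => eP (h' 0) (h' 1) := by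
  have c0 := (contDiff_coord 0).continuous
  have c1 := (contDiff_coord 1).continuous
  have f1 : ∀ᶠ h' : E2 in 𝓝 h, 9 < ft (-h' 0) (h' 1) := by
    have : Continuous fun h' : E2 => ft (-h' 0) (h' 1) := by
      unfold ft
      fun_prop
    apply this.continuousAt.eventually_const_lt
    unfold ft
    nlinarith [sq_nonneg (h 1 - 1 / 2)]
  have f2 : ∀ᶠ h' : E2 in 𝓝 h, 9 < ft (h' 0) (-h' 1) := by
    have : Continuous fun h' : E2 => ft (h' 0) (-h' 1) := by
      unfold ft
      fun_prop
    apply this.continuousAt.eventually_const_lt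
    unfold ft
    nlinarith [sq_nonneg (h 0 - 1 / 4)]
  have f3 : ∀ᶠ h' : E2 in 𝓝 h, 9 < ft (-h' 0) (-h' 1) := by
    have : Continuous fun h' : E2 => ft (-h' 0) (-h' 1) := by
      unfold ft
      fun_prop
    apply this.continuousAt.eventually_const_lt
    unfold ft
    nlinarith [sq_nonneg (h 1)]
  filter_upwards [f1, f2, f3] with h' g1 g2 g3
  unfold eD
  rw [eP_flat g1.le, eP_flat g2.le, eP_flat g3.le]
  ext i
  fin_cases i <;> simp [rho, rhp, e0]

/-! ### immersion -/

/-- the finger as a map on the plane -/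
noncomputable def FF (h : E2) : E4 := eP (h 0) (h 1)

theorem contDiff_FF : ContDiff ℝ (⊤ : ℕ∞) FF := by
  rw [contDiff_euclidean]
  intro i
  exact contDiff_eP (contDiff_coord 0) (contDiff_coord 1) i

theorem ft_hasDeriv (a b v w : ℝ) : HasDerivAt (fun t : ℝ => ft (a + t * v) (b + t * w))
    (8192 * ((a - 1 / 4) * v + (b - 1 / 2) * w)) 0 := by
  have ha : HasDerivAt (fun t : ℝ => a + t * v - 1 / 4) v 0 := by
    simpa using (((hasDerivAt_id (0 : ℝ)).mul_const v).const_add a).sub_const (1 / 4)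
  have hb : HasDerivAt (fun t : ℝ => b + t * w - 1 / 2) w 0 := by
    simpa using (((hasDerivAt_id (0 : ℝ)).mul_const w).const_add b).sub_const (1 / 2)
  have := ((ha.pow 2).add (hb.pow 2)).const_mul 4096
  refine this.congr_deriv ?_
  norm_num
  ring

theorem alg_key {r r' s' t' a' f' n S C N1 N1' N2 N2' u w v1 v2 x' : ℝ}
    (hr : r ≠ 0) (hn : n ≠ 0) (hSC : S ^ 2 + C ^ 2 = 1) (hN : N1 ^ 2 + N2 ^ 2 = 1)
    (hNN : N1 * N1' + N2 * N2' = 0)
    (hr' : r' = f' * t' * u + n * v1) (hs' : s' = f' * t' * w + n * v2)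
    (hx' : x' = a' * t')
    (h0 : -(r' * S + r * (C * x')) = 0)
    (h1 : (r' * C + r * (-S * x')) * N1 + r * C * (N1' * x') = 0)
    (h2 : (r' * C + r * (-S * x')) * N2 + r * C * (N2' * x') = 0)
    (h3 : s' = 0) (hst : f' = 0 ∨ a' ≠ 0) : v1 = 0 ∧ v2 = 0 := by
  have e1 : r' = 0 := by
    have : r' * (S ^ 2 + C ^ 2) = 0 := by
      linear_combination (-S) * h0 + (C * N1) * h1 + (C * N2) * h2 -
        (r' * C ^ 2 - r * S * C * x') * hN - (r * C ^ 2 * x') * hNN
    rwa [hSC, mul_one] at this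
  rw [e1] at h0 h1 h2
  have e2 : r * C * x' = 0 := by linear_combination -h0
  have e3 : r * S * x' = 0 := by
    have : r * S * x' * (N1 ^ 2 + N2 ^ 2) = 0 := by
      linear_combination (-N1) * h1 + (-N2) * h2 + (r * C * x') * hNN
    rwa [hN, mul_one] at this
  have e4 : x' = 0 := by
    have : r * x' * (S ^ 2 + C ^ 2) = 0 := by
      linear_combination S * e3 + C * e2
    rw [hSC, mul_one] at this
    exact (mul_eq_zero.1 this).resolve_left hr
  have e5 : f' * t' = 0 := by
    rcases hst with h | h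
    · rw [h, zero_mul]
    · rw [hx'] at e4
      rw [(mul_eq_zero.1 e4).resolve_left h, mul_zero]
  rw [e5] at hr' hs'
  rw [e1] at hr'
  rw [h3] at hs'
  constructor
  · have : n * v1 = 0 := by linarith
    exact (mul_eq_zero.1 this).resolve_left hn
  · have : n * v2 = 0 := by linarith
    exact (mul_eq_zero.1 this).resolve_left hn

theorem FF_inj (h : E2) (h0 : 0 ≤ h 0) : Function.Injective (fderiv ℝ FF h) := by
  rw [injective_iff_map_eq_zero]
  intro v hv
  have hdiff : HasFDerivAt FF (fderiv ℝ FF h) h :=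
    ((contDiff_FF.differentiable (by simp)) h).hasFDerivAt
  have hline : HasDerivAt (fun t : ℝ => h + t • v) v 0 := by
    simpa using ((hasDerivAt_id (0 : ℝ)).smul_const v).const_add h
  have hg : HasDerivAt (fun t : ℝ => FF (h + t • v)) 0 0 := by
    have h1 : HasFDerivAt FF (fderiv ℝ FF h) (h + (0 : ℝ) • v) := by simpa using hdiff
    have := h1.comp_hasDerivAt (0 : ℝ) hline
    rw [hv] at this
    exact this
  have hcoord : ∀ i : Fin 4, HasDerivAt (fun t : ℝ => FF (h + t • v) i) 0 0 := by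
    intro i
    have := ((EuclideanSpace.proj i : E4 →L[ℝ] ℝ).hasFDerivAt).comp_hasDerivAt (0 : ℝ) hg
    rw [map_zero] at this
    exact this
  have hF : ∀ t : ℝ, FF (h + t • v) = eP (h 0 + t * v 0) (h 1 + t * v 1) := by
    intro t
    simp [FF]
  simp only [hF] at hcoord
  suffices hvv : v 0 = 0 ∧ v 1 = 0 by
    ext i
    fin_cases i
    · simpa using hvv.1
    · simpa using hvv.2
  set a := h 0
  set b := h 1
  by_cases hfar : 9 < ft a b
  · have hev : ∀ᶠ t : ℝ in 𝓝 0, 9 ≤ ft (a + t * v 0) (b + t * v 1) := by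
      have hc : ContinuousAt (fun t : ℝ => ft (a + t * v 0) (b + t * v 1)) 0 :=
        (ft_hasDeriv a b (v 0) (v 1)).continuousAt
      have : ∀ᶠ t : ℝ in 𝓝 0, 9 < ft (a + t * v 0) (b + t * v 1) := by
        apply hc.eventually_const_lt
        simpa using hfar
      exact this.mono fun t ht => ht.le
    have k1 : HasDerivAt (fun t : ℝ => a + t * v 0) 0 0 := by
      refine (hcoord 1).congr_of_eventuallyEq ?_
      filter_upwards [hev] with t ht
      rw [eP_flat ht]
      simp [e0]
    have k2 : HasDerivAt (fun t : ℝ => b + t * v 1) 0 0 := by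
      refine (hcoord 3).congr_of_eventuallyEq ?_
      filter_upwards [hev] with t ht
      rw [eP_flat ht]
      simp [e0]
    have m1 : HasDerivAt (fun t : ℝ => a + t * v 0) (v 0) 0 := by
      simpa using ((hasDerivAt_id (0 : ℝ)).mul_const (v 0)).const_add a
    have m2 : HasDerivAt (fun t : ℝ => b + t * v 1) (v 1) 0 := by
      simpa using ((hasDerivAt_id (0 : ℝ)).mul_const (v 1)).const_add b
    exact ⟨m1.unique k1, m2.unique k2⟩
  · -- the main case
    have hτ : ft a b ≤ 9 := not_lt.1 hfar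
    have dτ := ft_hasDeriv a b (v 0) (v 1)
    set t' := 8192 * ((a - 1 / 4) * v 0 + (b - 1 / 2) * v 1) with ht'
    have z0 : ft (a + 0 * v 0) (b + 0 * v 1) = ft a b := by simp
    have dn : HasDerivAt (fun t : ℝ => fN (ft (a + t * v 0) (b + t * v 1)))
        (deriv fN (ft a b) * t') 0 := by
      have h1 : HasDerivAt fN (deriv fN (ft a b)) (ft (a + 0 * v 0) (b + 0 * v 1)) := by
        rw [z0, (fN_hasDeriv (ft a b)).deriv]
        exact fN_hasDeriv _
      exact h1.comp (0 : ℝ) dτ
    have dc : HasDerivAt (fun t : ℝ => cc (a + t * v 0) (b + t * v 1))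
        (deriv fA (ft a b) * t') 0 := by
      have h1 : HasDerivAt fA (deriv fA (ft a b)) (ft (a + 0 * v 0) (b + 0 * v 1)) := by
        rw [z0, (fA_hasDeriv (ft a b)).deriv]
        exact fA_hasDeriv _
      exact h1.comp (0 : ℝ) dτ
    have da : HasDerivAt (fun t : ℝ => a + t * v 0 - 1 / 4) (v 0) 0 := by
      simpa using (((hasDerivAt_id (0 : ℝ)).mul_const (v 0)).const_add a).sub_const (1 / 4)
    have db : HasDerivAt (fun t : ℝ => b + t * v 1 - 1 / 2) (v 1) 0 := by
      simpa using (((hasDerivAt_id (0 : ℝ)).mul_const (v 1)).const_add b).sub_const (1 / 2)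
    have dr : HasDerivAt (fun t : ℝ => rr (a + t * v 0) (b + t * v 1))
        (deriv fN (ft a b) * t' * (a - 1 / 4) + fN (ft a b) * v 0) 0 := by
      have := (dn.mul da).const_add (1 / 4)
      refine this.congr_deriv ?_
      simp
    have ds : HasDerivAt (fun t : ℝ => ss (a + t * v 0) (b + t * v 1))
        (deriv fN (ft a b) * t' * (b - 1 / 2) + fN (ft a b) * v 1) 0 := by
      have := (dn.mul db).const_add (1 / 2)
      refine this.congr_deriv ?_
      simp
    have zc : cc (a + 0 * v 0) (b + 0 * v 1) = cc a b := by simp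
    have zr : rr (a + 0 * v 0) (b + 0 * v 1) = rr a b := by simp
    have dS : HasDerivAt (fun t : ℝ => sin (cc (a + t * v 0) (b + t * v 1)))
        (cos (cc a b) * (deriv fA (ft a b) * t')) 0 := by
      have := dc.sin
      rwa [zc] at this
    have dC : HasDerivAt (fun t : ℝ => cos (cc (a + t * v 0) (b + t * v 1)))
        (-sin (cc a b) * (deriv fA (ft a b) * t')) 0 := by
      have := dc.cos
      rwa [zc] at this
    have n1d : HasDerivAt N1 (deriv N1 (cc a b)) (cc a b) :=
      ((contDiff_N1.differentiable (by simp)) _).hasDerivAt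
    have n2d : HasDerivAt N2 (deriv N2 (cc a b)) (cc a b) :=
      ((contDiff_N2.differentiable (by simp)) _).hasDerivAt
    have dN1 : HasDerivAt (fun t : ℝ => N1 (cc (a + t * v 0) (b + t * v 1)))
        (deriv N1 (cc a b) * (deriv fA (ft a b) * t')) 0 := by
      have h1 : HasDerivAt N1 (deriv N1 (cc a b)) (cc (a + 0 * v 0) (b + 0 * v 1)) := by
        rw [zc]
        exact n1d
      exact h1.comp (0 : ℝ) dc
    have dN2 : HasDerivAt (fun t : ℝ => N2 (cc (a + t * v 0) (b + t * v 1)))
        (deriv N2 (cc a b) * (deriv fA (ft a b) * t')) 0 := by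
      have h1 : HasDerivAt N2 (deriv N2 (cc a b)) (cc (a + 0 * v 0) (b + 0 * v 1)) := by
        rw [zc]
        exact n2d
      exact h1.comp (0 : ℝ) dc
    have hNN : N1 (cc a b) * deriv N1 (cc a b) + N2 (cc a b) * deriv N2 (cc a b) = 0 := by
      have k1 : HasDerivAt (fun χ => N1 χ ^ 2 + N2 χ ^ 2)
          (2 * N1 (cc a b) * deriv N1 (cc a b) + 2 * N2 (cc a b) * deriv N2 (cc a b))
          (cc a b) := by
        have := (n1d.pow 2).add (n2d.pow 2)
        refine this.congr_deriv ?_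
        norm_num
      have k2 : HasDerivAt (fun χ => N1 χ ^ 2 + N2 χ ^ 2) 0 (cc a b) := by
        have : (fun χ => N1 χ ^ 2 + N2 χ ^ 2) = fun _ => (1 : ℝ) := by
          funext χ
          exact n_sq χ
        rw [this]
        exact hasDerivAt_const _ _
      have := k1.unique k2
      linarith
    have q0 := (dr.mul dS).neg
    have q1 := (dr.mul dC).mul dN1
    have q2 := (dr.mul dC).mul dN2
    have p0 := hcoord 0
    have p1 := hcoord 1
    have p2 := hcoord 2
    have p3 := hcoord 3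
    simp only [eP_eq] at p0 p1 p2 p3
    have u0 := HasDerivAt.unique (q0 : HasDerivAt (fun t : ℝ =>
      -(rr (a + t * v 0) (b + t * v 1) * sin (cc (a + t * v 0) (b + t * v 1)))) _ 0) p0
    have u1 := HasDerivAt.unique (q1 : HasDerivAt (fun t : ℝ =>
      rr (a + t * v 0) (b + t * v 1) * cos (cc (a + t * v 0) (b + t * v 1)) *
        N1 (cc (a + t * v 0) (b + t * v 1))) _ 0) p1
    have u2 := HasDerivAt.unique (q2 : HasDerivAt (fun t : ℝ =>
      rr (a + t * v 0) (b + t * v 1) * cos (cc (a + t * v 0) (b + t * v 1)) *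
        N2 (cc (a + t * v 0) (b + t * v 1))) _ 0) p2
    have u3 := HasDerivAt.unique (ds : HasDerivAt (fun t : ℝ =>
      ss (a + t * v 0) (b + t * v 1)) _ 0) p3
    simp only [Pi.mul_apply, zc, zr] at u0 u1 u2
    have hfn := fN_ge (ft a b)
    have hfn2 := fN_le (ft a b)
    have hr0 : rr a b ≠ 0 := by
      have h1 : (a - 1 / 4) ^ 2 ≤ (3 / 64) ^ 2 := by
        unfold ft at hτ
        nlinarith [sq_nonneg (b - 1 / 2)]
      have h2 := abs_le_of_sq_le_sq' h1 (by norm_num)
      unfold rr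
      have h3 : -(3 / 32) ≤ fN (ft a b) * (a - 1 / 4) := by nlinarith [h2.1, h2.2]
      linarith
    refine alg_key (r := rr a b) (S := sin (cc a b)) (C := cos (cc a b)) (n := fN (ft a b))
      (f' := deriv fN (ft a b)) (t' := t') (a' := deriv fA (ft a b))
      (x' := deriv fA (ft a b) * t') (u := a - 1 / 4) (w := b - 1 / 2) hr0 (by linarith)
      (by nlinarith [Real.sin_sq_add_cos_sq (cc a b)]) (n_sq (cc a b)) hNN rfl rfl rfl
      ?_ ?_ ?_ u3 (stationary (ft a b))
    · exact u0
    · exact u1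
    · exact u2

theorem eD_inj (h : E2) : Function.Injective (fderiv ℝ eD h) := by
  -- first quadrant
  have key : ∀ h : E2, 0 ≤ h 0 → 0 ≤ h 1 → Function.Injective (fderiv ℝ eD h) := by
    intro h h0 h1
    have : fderiv ℝ eD h = fderiv ℝ FF h := (eD_near h0 h1).fderiv_eq
    rw [this]
    exact FF_inj h h0
  -- transport by a reflection
  have refl : ∀ (σ : E2 →L[ℝ] E2) (τ : E4 →L[ℝ] E4), Function.Injective σ →
      (∀ x, eD (σ x) = τ (eD x)) → (∀ x, τ (τ x) = x) → (∀ x, σ (σ x) = x) →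
      ∀ h, Function.Injective (fderiv ℝ eD (σ h)) → Function.Injective (fderiv ℝ eD h) := by
    intro σ τ hσ hστ hτ hσ2 h hinj
    have hd : Differentiable ℝ eD := contDiff_eD.differentiable (by simp)
    have e1 : HasFDerivAt (fun x => eD (σ x)) ((fderiv ℝ eD (σ h)).comp σ) h :=
      ((hd (σ h)).hasFDerivAt).comp h σ.hasFDerivAt
    have e2 : HasFDerivAt (fun x => τ (eD x)) (τ.comp (fderiv ℝ eD h)) h :=
      τ.hasFDerivAt.comp h (hd h).hasFDerivAt
    have e3 : (fun x => eD (σ x)) = fun x => τ (eD x) := funext hστ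
    rw [e3] at e1
    have e4 := e1.unique e2
    intro v w hvw
    apply hσ
    apply hinj
    have e5 := DFunLike.congr_fun e4 v
    have e6 := DFunLike.congr_fun e4 w
    simp only [ContinuousLinearMap.comp_apply] at e5 e6
    rw [e5, e6, hvw]
  have i0 : Function.Injective sg0 := by
    intro v w hvw
    have h0 := congrArg (fun x : E2 => x 0) hvw
    have h1 := congrArg (fun x : E2 => x 1) hvw
    simp [sg0] at h0 h1
    ext i
    fin_cases i <;> simp [h0, h1]
  have i1 : Function.Injective sg1 := by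
    intro v w hvw
    have h0 := congrArg (fun x : E2 => x 0) hvw
    have h1 := congrArg (fun x : E2 => x 1) hvw
    simp [sg1] at h0 h1
    ext i
    fin_cases i <;> simp [h0, h1]
  have r0 : ∀ h : E2, Function.Injective (fderiv ℝ eD (sg0 h)) →
      Function.Injective (fderiv ℝ eD h) := by
    intro h
    refine refl sg0 rhoL i0 (fun x => ?_) (fun x => ?_) (fun x => ?_) h
    · exact eD_rho x
    · ext i
      fin_cases i <;> simp [rhoL, rho]
    · ext i
      fin_cases i <;> simp [sg0]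
  have r1 : ∀ h : E2, Function.Injective (fderiv ℝ eD (sg1 h)) →
      Function.Injective (fderiv ℝ eD h) := by
    intro h
    refine refl sg1 rhpL i1 (fun x => ?_) (fun x => ?_) (fun x => ?_) h
    · exact eD_rhp x
    · ext i
      fin_cases i <;> simp [rhpL, rhp]
    · ext i
      fin_cases i <;> simp [sg1]
  have half : ∀ h : E2, 0 ≤ h 1 → Function.Injective (fderiv ℝ eD h) := by
    intro h h1
    rcases le_total 0 (h 0) with h0 | h0
    · exact key h h0 h1
    · apply r0
      apply key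
      · simp [sg0]
        exact h0
      · simp [sg0]
        exact h1
  rcases le_total 0 (h 1) with h1 | h1
  · exact half h h1
  · apply r1
    apply half
    simp [sg1]
    exact h1

end H32

open H32

theorem disk1 : S_DISK1 :=
  ⟨contDiff_eD, eD_inj, eD_rho, eD_rhp, eD_far⟩

end EQD
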