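import Pool.Agent.H73.EQD.Stmts

open Real Set Topology Filter

namespace EQD
namespace H32

theorem continuous_rad : Continuous rad := by
  unfold rad
  fun_prop

theorem continuous_mp : Continuous mp := by
  have := continuous_rad
  unfold mp
  fun_prop

theorem continuous_mm : Continuous mm := by
  have := continuous_rad
  unfold mm
  fun_prop

theorem continuousAt_lat {p : E4} (h : rad p ≠ 0) : ContinuousAt lat p := by
  unfold lat
  have h0 : ContinuousAt (fun p : E4 => p 0) p := by fun_prop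
  exact Real.continuous_arcsin.continuousAt.comp
    (h0.div continuous_rad.continuousAt h)

theorem continuousAt_la {p : E4} (h : rad p ≠ 0) (j : Fin 6) : ContinuousAt (la j) p := by
  unfold la
  by_cases hj : j < 3
  · simpa [hj] using continuousAt_lat h
  · simp only [hj, if_false]
    exact (continuousAt_lat h).neg

theorem continuous_m1 (j : Fin 6) : Continuous (m1 j) := by
  unfold m1
  by_cases hj : j = 2 ∨ j = 5
  · simpa [hj] using continuous_mm
  · simpa [hj] using continuous_mp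

theorem continuous_m2 (j : Fin 6) : Continuous (m2 j) := by
  unfold m2
  by_cases hj : j = 2 ∨ j = 5
  · simpa [hj] using continuous_mp
  · simpa [hj] using continuous_mm

theorem continuous_ell (j : Fin 6) : Continuous (ell j) := by
  unfold ell
  fun_prop

theorem continuous_dt (j : Fin 6) : Continuous (dt j) := by
  unfold dt
  fun_prop

/-- the two radii cannot both be small -/
theorem mp_add_mm (p : E4) : 1 ≤ mp p + mm p := by
  have h1 : |p 3 - 1 / 2| ≤ mp p := by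
    unfold mp
    apply Real.abs_le_sqrt
    nlinarith [sq_nonneg (rad p - 1 / 4)]
  have h2 : |p 3 + 1 / 2| ≤ mm p := by
    unfold mm
    apply Real.abs_le_sqrt
    nlinarith [sq_nonneg (rad p - 1 / 4)]
  have h3 := neg_abs_le (p 3 - 1 / 2)
  have h4 := le_abs_self (p 3 + 1 / 2)
  linarith

theorem m1_add_m2 (j : Fin 6) (p : E4) : 1 ≤ m1 j p + m2 j p := by
  have := mp_add_mm p
  unfold m1 m2
  split_ifs <;> linarith

theorem rad_eq_zero {p : E4} : rad p = 0 ↔ p 0 = 0 ∧ p 1 = 0 ∧ p 2 = 0 := by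
  unfold rad
  rw [Real.sqrt_eq_zero (by positivity)]
  constructor
  · intro h
    refine ⟨?_, ?_, ?_⟩ <;> nlinarith [sq_nonneg (p 0), sq_nonneg (p 1), sq_nonneg (p 2)]
  · rintro ⟨h0, h1, h2⟩
    simp [h0, h1, h2]

/-- closed form of `CondA` -/
theorem condA_iff {M : ℝ → ℝ} (hM : Good M) {α m m' : ℝ} (h : 1 ≤ m + m') :
    CondA M α m m' ↔ (α = 0 ∧ M 0 ≤ m ∧ M 0 ≤ m') ∨ (α ≤ 0 ∧ m = M (-α)) ∨
      (0 ≤ α ∧ m' = M α) := by
  unfold CondA
  have hlt := hM.lt
  constructor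
  · rintro (h1 | ⟨h1, h2⟩ | ⟨h1, h2⟩)
    · exact Or.inl h1
    · exact Or.inr (Or.inl ⟨h1.le, h2⟩)
    · exact Or.inr (Or.inr ⟨h1.le, h2⟩)
  · rintro (h1 | ⟨h1, h2⟩ | ⟨h1, h2⟩)
    · exact Or.inl h1
    · rcases h1.lt_or_eq with h3 | h3
      · exact Or.inr (Or.inl ⟨h3, h2⟩)
      · subst h3
        rw [neg_zero] at h2
        have := hlt 0
        exact Or.inl ⟨rfl, h2.ge, by linarith⟩
    · rcases h1.lt_or_eq with h3 | h3
      · exact Or.inr (Or.inr ⟨h3, h2⟩)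
      · subst h3
        have := hlt 0
        exact Or.inl ⟨rfl, by linarith, h2.ge⟩

/-- closed form of `CondB` -/
theorem condB_iff {M : ℝ → ℝ} {α m m' : ℝ} :
    CondB M α m m' ↔ m = M (π - α) ∨ (0 ≤ α ∧ m' = M (2 * π - α)) ∨
      (α = 0 ∧ m' ≤ M (2 * π)) := by
  unfold CondB
  constructor
  · rintro (h1 | ⟨h1, h2⟩ | h1)
    · exact Or.inl h1
    · exact Or.inr (Or.inl ⟨h1.le, h2⟩)
    · exact Or.inr (Or.inr h1)
  · rintro (h1 | ⟨h1, h2⟩ | h1)
    · exact Or.inl h1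
    · rcases h1.lt_or_eq with h3 | h3
      · exact Or.inr (Or.inl ⟨h3, h2⟩)
      · subst h3
        rw [sub_zero] at h2
        exact Or.inr (Or.inr ⟨rfl, h2.le⟩)
    · exact Or.inr (Or.inr h1)

/-- closed set of values, pages `0, 3` -/
def CSA (M : ℝ → ℝ) : Set (ℝ × ℝ × ℝ × ℝ × ℝ) :=
  {q | (q.2.2.1 = 0 ∧ M 0 ≤ q.2.2.2.1 ∧ M 0 ≤ q.2.2.2.2) ∨
        (q.2.2.1 ≤ 0 ∧ q.2.2.2.1 = M (-q.2.2.1)) ∨ (0 ≤ q.2.2.1 ∧ q.2.2.2.2 = M q.2.2.1)}

/-- closed set of values, the other pages -/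
def CSB (M : ℝ → ℝ) : Set (ℝ × ℝ × ℝ × ℝ × ℝ) :=
  {q | q.2.2.2.1 = M (π - q.2.2.1) ∨ (0 ≤ q.2.2.1 ∧ q.2.2.2.2 = M (2 * π - q.2.2.1)) ∨
      (q.2.2.1 = 0 ∧ q.2.2.2.2 ≤ M (2 * π))}

open Classical in
/-- the closed set of values -/
noncomputable def CS (M : ℝ → ℝ) (j : Fin 6) : Set (ℝ × ℝ × ℝ × ℝ × ℝ) :=
  ({q | q.1 = 0} ∩ {q | 0 ≤ q.2.1}) ∩ (if j = 0 ∨ j = 3 then CSA M else CSB M)

theorem isClosed_CSA {M : ℝ → ℝ} (hM : Good M) : IsClosed (CSA M) := by
  have hc := hM.cont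
  have e1 : IsClosed {q : ℝ × ℝ × ℝ × ℝ × ℝ | q.2.2.1 = 0} :=
    isClosed_eq (by fun_prop) (by fun_prop)
  have e2 : IsClosed {q : ℝ × ℝ × ℝ × ℝ × ℝ | M 0 ≤ q.2.2.2.1} :=
    isClosed_le (by fun_prop) (by fun_prop)
  have e3 : IsClosed {q : ℝ × ℝ × ℝ × ℝ × ℝ | M 0 ≤ q.2.2.2.2} :=
    isClosed_le (by fun_prop) (by fun_prop)
  have e4 : IsClosed {q : ℝ × ℝ × ℝ × ℝ × ℝ | q.2.2.1 ≤ 0} :=
    isClosed_le (by fun_prop) (by fun_prop)
  have e5 : IsClosed {q : ℝ × ℝ × ℝ × ℝ × ℝ | q.2.2.2.1 = M (-q.2.2.1)} :=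
    isClosed_eq (by fun_prop) (by fun_prop)
  have e6 : IsClosed {q : ℝ × ℝ × ℝ × ℝ × ℝ | 0 ≤ q.2.2.1} :=
    isClosed_le (by fun_prop) (by fun_prop)
  have e7 : IsClosed {q : ℝ × ℝ × ℝ × ℝ × ℝ | q.2.2.2.2 = M q.2.2.1} :=
    isClosed_eq (by fun_prop) (by fun_prop)
  exact (e1.inter (e2.inter e3)).union ((e4.inter e5).union (e6.inter e7))

theorem isClosed_CSB {M : ℝ → ℝ} (hM : Good M) : IsClosed (CSB M) := by
  have hc := hM.cont
  have e1 : IsClosed {q : ℝ × ℝ × ℝ × ℝ × ℝ | q.2.2.1 = 0} :=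
    isClosed_eq (by fun_prop) (by fun_prop)
  have e2 : IsClosed {q : ℝ × ℝ × ℝ × ℝ × ℝ | q.2.2.2.1 = M (π - q.2.2.1)} :=
    isClosed_eq (by fun_prop) (by fun_prop)
  have e3 : IsClosed {q : ℝ × ℝ × ℝ × ℝ × ℝ | 0 ≤ q.2.2.1} :=
    isClosed_le (by fun_prop) (by fun_prop)
  have e4 : IsClosed {q : ℝ × ℝ × ℝ × ℝ × ℝ | q.2.2.2.2 = M (2 * π - q.2.2.1)} :=
    isClosed_eq (by fun_prop) (by fun_prop)
  have e5 : IsClosed {q : ℝ × ℝ × ℝ × ℝ × ℝ | q.2.2.2.2 ≤ M (2 * π)} :=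
    isClosed_le (by fun_prop) (by fun_prop)
  exact e2.union ((e3.inter e4).union (e1.inter e5))

theorem isClosed_CS {M : ℝ → ℝ} (hM : Good M) (j : Fin 6) : IsClosed (CS M j) := by
  unfold CS
  apply IsClosed.inter
  · exact (isClosed_eq continuous_fst continuous_const).inter
      (isClosed_le continuous_const (continuous_fst.comp continuous_snd))
  · by_cases hj : j = 0 ∨ j = 3
    · rw [if_pos hj]
      exact isClosed_CSA hM
    · rw [if_neg hj]
      exact isClosed_CSB hM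

theorem mem_CS {M : ℝ → ℝ} (hM : Good M) (j : Fin 6) (p : E4) :
    (ell j p, dt j p, la j p, m1 j p, m2 j p) ∈ CS M j ↔ p ∈ Pg j ∧ Cond M j p := by
  unfold CS Pg Cond
  by_cases hj : j = 0 ∨ j = 3
  · simp only [if_pos hj]
    rw [condA_iff hM (m1_add_m2 j p)]
    rfl
  · simp only [if_neg hj]
    rw [condB_iff]
    rfl

end H32

open H32

theorem clo : S_CLO := by
  intro M hM
  refine ⟨?_, ?_⟩
  · rw [isClosed_iff_frequently]
    intro p hp
    by_cases hr : rad p = 0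
    · exact Or.inl hr
    · have hev : ∀ᶠ q in 𝓝 p, rad q ≠ 0 :=
        continuous_rad.continuousAt.eventually_ne hr
      by_contra hcon
      have hall : ∀ j : Fin 6, ∀ᶠ q in 𝓝 p,
          ¬ ((ell j q, dt j q, la j q, m1 j q, m2 j q) ∈ CS M j) := by
        intro j
        by_contra hj
        have hfr : ∃ᶠ q in 𝓝 p, (ell j q, dt j q, la j q, m1 j q, m2 j q) ∈ CS M j := hj
        have htd : Tendsto (fun q => (ell j q, dt j q, la j q, m1 j q, m2 j q)) (𝓝 p)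
            (𝓝 (ell j p, dt j p, la j p, m1 j p, m2 j p)) := by
          refine Tendsto.prodMk_nhds (continuous_ell j).continuousAt
            (Tendsto.prodMk_nhds (continuous_dt j).continuousAt
            (Tendsto.prodMk_nhds (continuousAt_la hr j)
            (Tendsto.prodMk_nhds (continuous_m1 j).continuousAt
              (continuous_m2 j).continuousAt)))
        have := (isClosed_CS hM j).mem_of_frequently_of_tendsto hfr htd
        rw [mem_CS hM] at this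
        exact hcon (Or.inr ⟨j, this⟩)
      rw [← Filter.eventually_all] at hall
      apply hp
      filter_upwards [hall, hev] with q hq1 hq2 hq3
      rcases hq3 with h | ⟨j, h⟩
      · exact hq2 h
      · exact hq1 j ((mem_CS hM j q).2 h)
  · intro j p hp hD
    rcases hD with h | ⟨i, h, -⟩
    · obtain ⟨-, h1, h2⟩ := rad_eq_zero.1 h
      have := hp.1
      simp [ell, h1, h2] at this
    · obtain ⟨h1, h2⟩ := hp
      obtain ⟨h3, h4⟩ := h
      fin_cases j <;> fin_cases i <;> simp [ell, dt, uy, uz] at h1 h2 h3 h4 <;> linarith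

end EQD
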