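import Pool.Agent.H32.EQD.CLO

open Real Set Topology Filter

namespace EQD
namespace H32

/-- local constancy of `labA` -/
theorem labA_const {M : ℝ → ℝ} (hM : Good M) {X : Type*} {l : Filter X}
    {f g g' : X → ℝ} {α m m' : ℝ} (hf : Tendsto f l (𝓝 α)) (hg : Tendsto g l (𝓝 m))
    (hg' : Tendsto g' l (𝓝 m')) (h1 : 1 ≤ m + m') (hn : ¬ CondA M α m m') :
    ∀ᶠ q in l, labA M (f q) (g q) (g' q) = labA M α m m' := by
  have hlt := hM.lt
  have hMf : Tendsto (fun q => M (f q)) l (𝓝 (M α)) := (hM.cont.tendsto α).comp hf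
  have hMn : Tendsto (fun q => M (-f q)) l (𝓝 (M (-α))) := (hM.cont.tendsto (-α)).comp hf.neg
  have hn1 : ¬ (α = 0 ∧ M 0 ≤ m ∧ M 0 ≤ m') := fun h => hn (Or.inl h)
  have hn2 : ¬ (α < 0 ∧ m = M (-α)) := fun h => hn (Or.inr (Or.inl h))
  have hn3 : ¬ (0 < α ∧ m' = M α) := fun h => hn (Or.inr (Or.inr h))
  unfold labA
  rcases lt_trichotomy α 0 with h | h | h
  · -- negative
    have hne : m ≠ M (-α) := fun h2 => hn2 ⟨h, h2⟩
    rcases lt_or_gt_of_ne hne with h2 | h2
    · filter_upwards [hf.eventually_lt_const h, hg.eventually_lt hMn h2] with q h3 h4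
      rw [if_pos (Or.inr ⟨h3.le, h4⟩), if_pos (Or.inr ⟨h.le, h2⟩)]
    · filter_upwards [hf.eventually_lt_const h, hMn.eventually_lt hg h2] with q h3 h4
      rw [if_neg, if_neg]
      · rintro (⟨h5, -⟩ | ⟨-, h5⟩) <;> linarith
      · rintro (⟨h5, -⟩ | ⟨-, h5⟩) <;> linarith
  · -- zero
    subst h
    rw [neg_zero] at hMn
    by_cases h2 : m < M 0
    · have h3 : M 0 < m' := by have := hlt 0; linarith
      rw [if_pos (Or.inr ⟨le_refl _, by rwa [neg_zero]⟩)]
      filter_upwards [hg.eventually_lt hMn h2, hMf.eventually_lt hg' h3] with q h4 h5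
      rcases le_or_gt (f q) 0 with h6 | h6
      · rw [if_pos (Or.inr ⟨h6, h4⟩)]
      · rw [if_pos (Or.inl ⟨h6, h5⟩)]
    · have h3 : m' < M 0 := by
        by_contra h3
        exact hn1 ⟨rfl, not_lt.1 h2, not_lt.1 h3⟩
      have h4 : M 0 < m := by have := hlt 0; linarith
      rw [if_neg (by
        rintro (⟨h5, -⟩ | ⟨-, h5⟩)
        · exact lt_irrefl _ h5
        · rw [neg_zero] at h5; exact h2 h5)]
      filter_upwards [hMn.eventually_lt hg h4, hg'.eventually_lt hMf h3] with q h5 h6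
      rw [if_neg]
      rintro (⟨-, h7⟩ | ⟨-, h7⟩) <;> linarith
  · -- positive
    have hne : m' ≠ M α := fun h2 => hn3 ⟨h, h2⟩
    rcases lt_or_gt_of_ne hne with h2 | h2
    · filter_upwards [hf.eventually_const_lt h, hg'.eventually_lt hMf h2] with q h3 h4
      rw [if_neg, if_neg]
      · rintro (⟨-, h5⟩ | ⟨h5, -⟩) <;> linarith
      · rintro (⟨-, h5⟩ | ⟨h5, -⟩) <;> linarith
    · filter_upwards [hf.eventually_const_lt h, hMf.eventually_lt hg' h2] with q h3 h4
      rw [if_pos (Or.inl ⟨h3, h4⟩), if_pos (Or.inl ⟨h, h2⟩)]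

/-- local constancy of `labB` -/
theorem labB_const {M : ℝ → ℝ} (hM : Good M) {X : Type*} {l : Filter X}
    {f g g' : X → ℝ} {α m m' : ℝ} (hf : Tendsto f l (𝓝 α)) (hg : Tendsto g l (𝓝 m))
    (hg' : Tendsto g' l (𝓝 m')) (hn : ¬ CondB M α m m') :
    ∀ᶠ q in l, labB M (f q) (g q) (g' q) = labB M α m m' := by
  have hM1 : Tendsto (fun q => M (π - f q)) l (𝓝 (M (π - α))) :=
    (hM.cont.tendsto (π - α)).comp (tendsto_const_nhds.sub hf)
  have hM2 : Tendsto (fun q => M (2 * π - f q)) l (𝓝 (M (2 * π - α))) :=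
    (hM.cont.tendsto (2 * π - α)).comp (tendsto_const_nhds.sub hf)
  have hn1 : m ≠ M (π - α) := fun h => hn (Or.inl h)
  have hn2 : ¬ (0 < α ∧ m' = M (2 * π - α)) := fun h => hn (Or.inr (Or.inl h))
  have hn3 : ¬ (α = 0 ∧ m' ≤ M (2 * π)) := fun h => hn (Or.inr (Or.inr h))
  unfold labB
  rcases lt_or_gt_of_ne hn1 with h1 | h1
  · filter_upwards [hg.eventually_lt hM1 h1] with q h2
    rw [if_pos h2, if_pos h1]
  · rw [if_neg (not_lt.2 h1.le)]
    have hev := hM1.eventually_lt hg h1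
    rcases lt_trichotomy α 0 with h | h | h
    · filter_upwards [hev, hf.eventually_lt_const h] with q h2 h3
      rw [if_neg (not_lt.2 h2.le), if_neg (fun h4 => lt_asymm h3 h4.1),
        if_neg (fun h4 => lt_asymm h h4.1)]
    · subst h
      rw [sub_zero] at hM2
      have h4 : M (2 * π) < m' := by
        by_contra h4
        exact hn3 ⟨rfl, not_lt.1 h4⟩
      filter_upwards [hev, hM2.eventually_lt hg' h4] with q h2 h3
      rw [if_neg (not_lt.2 h2.le), if_neg (fun h5 => lt_asymm h3 h5.2),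
        if_neg (fun h5 => lt_irrefl _ h5.1)]
    · have hne : m' ≠ M (2 * π - α) := fun h2 => hn2 ⟨h, h2⟩
      rcases lt_or_gt_of_ne hne with h2 | h2
      · filter_upwards [hev, hf.eventually_const_lt h, hg'.eventually_lt hM2 h2] with q h3 h4 h5
        rw [if_neg (not_lt.2 h3.le), if_pos ⟨h4, h5⟩, if_pos ⟨h, h2⟩]
      · filter_upwards [hev, hf.eventually_const_lt h, hM2.eventually_lt hg' h2] with q h3 h4 h5
        rw [if_neg (not_lt.2 h3.le), if_neg (fun h6 => lt_asymm h5 h6.2),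
          if_neg (fun h6 => lt_asymm h2 h6.2)]

end H32

open H32

theorem lc : S_LC := by
  intro M hM j v hv hD
  have hr : rad v ≠ 0 := fun h => hD (Or.inl h)
  have hC : ¬ Cond M j v := fun h => hD (Or.inr ⟨j, hv, h⟩)
  have key : ∀ᶠ v' in 𝓝 v, lab M j v' = lab M j v := by
    unfold lab
    unfold Cond at hC
    by_cases hj : j = 0 ∨ j = 3
    · rw [if_pos hj] at hC
      simp only [if_pos hj]
      exact labA_const hM (continuousAt_la hr j) (continuous_m1 j).continuousAt
        (continuous_m2 j).continuousAt (m1_add_m2 j v) hC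
    · rw [if_neg hj] at hC
      simp only [if_neg hj]
      exact labB_const hM (continuousAt_la hr j) (continuous_m1 j).continuousAt
        (continuous_m2 j).continuousAt hC
  filter_upwards [key] with v' h _ _
  exact h

end EQD
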